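import Pool.Agent.Lib.MP_6bc78b_nt.GP.H25.Mid8
import Pool.Agent.Lib.MP_6bc78b_nt.GP.H62.Defs9a

/-! Project GP9, row MID9: the middle region with three scales (after row MID8 of helper25). -/

set_option autoImplicit false

open Complex Filter Topology MeasureTheory ArithmeticFunction Set
open scoped ENNReal

namespace Pool.Agent.Lib.MP_6bc78b_nt.GP.H34M

open Pool.Agent.Lib.MP_6bc78b_nt.GP.G7 Pool.Agent.Lib.MP_6bc78b_nt.GP.G8
  Pool.Agent.Lib.MP_6bc78b_nt.GP.G9 Pool.Agent.Lib.MP_6bc78b_nt.GP.H25M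

/-- **MID9.** -/
theorem mid9 (hP : POLXStatement) (hM : MEL9Statement) (hR : RNG8Statement) (hG : GXStatement)
    (hS : SMOXStatement) (hX : STRXStatement) (hB : BASXStatement) (hA : ARI0Statement) :
    MID9Statement := by
  intro hRH A B a b ε ha hab hε
  obtain ⟨hbn, hbet, hff, -⟩ := hB
  obtain ⟨CP, TP, hCP, hTP, hP⟩ := hP a b ha hab
  obtain ⟨CX, hCX, hX⟩ := hX a b 1 ha hab one_pos
  obtain ⟨CG, hCG, hG⟩ := hG a ha
  obtain ⟨CR, hCR, hR⟩ := hR a ha
  obtain ⟨CS, TS, hCS, hTS, hS⟩ := hS A B a b ha hab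
  obtain ⟨CA, hCA, hA⟩ := hA a ha
  -- the parameters
  obtain ⟨η, hη0, hη1, hηb⟩ : ∃ η : ℝ, 0 < η ∧ η < 1 ∧ CX * CG * η ≤ ε / 18 := by
    refine ⟨min (1 / 2) (ε / (18 * (CX * CG))), lt_min (by norm_num) (by positivity),
      (min_le_left _ _).trans_lt (by norm_num), ?_⟩
    calc CX * CG * min (1 / 2) (ε / (18 * (CX * CG))) ≤ CX * CG * (ε / (18 * (CX * CG))) :=
          mul_le_mul_of_nonneg_left (min_le_right _ _) (by positivity)
      _ = ε / 18 := by field_simp
  obtain ⟨e, he0, he1, heb⟩ : ∃ e : ℝ, 0 < e ∧ e < 1 ∧ CX * CR * e ≤ ε / 18 := by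
    refine ⟨min (1 / 2) (ε / (18 * (CX * CR))), lt_min (by norm_num) (by positivity),
      (min_le_left _ _).trans_lt (by norm_num), ?_⟩
    calc CX * CR * min (1 / 2) (ε / (18 * (CX * CR))) ≤ CX * CR * (ε / (18 * (CX * CR))) :=
          mul_le_mul_of_nonneg_left (min_le_right _ _) (by positivity)
      _ = ε / 18 := by field_simp
  obtain ⟨TG, hTG, hG⟩ := hG η hη0 hη1.le
  obtain ⟨TR, hTR, hR⟩ := hR e he0 he1
  obtain ⟨K, TM, hTM, hM⟩ := hM hRH a b e η (ε / (9 * CP)) ha hab he0 he1 hη0 hη1 (by positivity)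
  have hlog : Tendsto Real.log atTop atTop := Real.tendsto_log_atTop
  have hlll : Tendsto (fun T : ℝ => Real.log (Real.log (Real.log (Real.log T)))) atTop atTop :=
    hlog.comp (hlog.comp (hlog.comp hlog))
  have ev1 : ∀ᶠ T : ℝ in atTop, 1 ≤ Real.log (Real.log (Real.log (Real.log T))) :=
    hlll.eventually_ge_atTop 1
  have ev2 : ∀ᶠ T : ℝ in atTop, Real.log T ^ 2 ≤ Real.sqrt T := by
    have h1 := (isLittleO_log_rpow_atTop (r := 1 / 4) (by norm_num)).bound (c := 1) one_pos
    filter_upwards [h1, eventually_ge_atTop 1] with T h1 h2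
    rw [one_mul, Real.norm_of_nonneg (Real.log_nonneg h2),
      Real.norm_of_nonneg (Real.rpow_nonneg (by linarith) _)] at h1
    calc Real.log T ^ 2 ≤ (T ^ (1 / 4 : ℝ)) ^ 2 := pow_le_pow_left₀ (Real.log_nonneg h2) h1 2
      _ = Real.sqrt T := by
        rw [← Real.rpow_natCast, ← Real.rpow_mul (by linarith), Real.sqrt_eq_rpow]
        norm_num
  have ev3 : ∀ᶠ T : ℝ in atTop, 18 * CS ^ 2 * (b - a) * Real.log T ^ 4 ≤ ε * T := by
    have h1 : Tendsto (fun T : ℝ => Real.log T ^ 4 / T) atTop (𝓝 0) := by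
      have := (Real.isLittleO_pow_log_id_atTop (n := 4)).tendsto_div_nhds_zero
      simpa using this
    have h2 : 0 < ε / (18 * CS ^ 2 * (b - a) + 1) := by
      have : 0 < b - a := by linarith
      positivity
    filter_upwards [h1.eventually_le_const h2, eventually_gt_atTop 0] with T h3 h4
    rw [div_le_iff₀ h4] at h3
    have h5 : 0 ≤ 18 * CS ^ 2 * (b - a) := by
      have : 0 < b - a := by linarith
      positivity
    calc 18 * CS ^ 2 * (b - a) * Real.log T ^ 4
        ≤ (18 * CS ^ 2 * (b - a) + 1) * Real.log T ^ 4 := by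
          refine mul_le_mul_of_nonneg_right (by linarith) (by positivity)
      _ ≤ (18 * CS ^ 2 * (b - a) + 1) * (ε / (18 * CS ^ 2 * (b - a) + 1) * T) :=
          mul_le_mul_of_nonneg_left h3 (by linarith)
      _ = ε * T := by field_simp
  obtain ⟨T0, hT0⟩ := eventually_atTop.1 ((ev1.and ev2).and ev3)
  refine ⟨K, max (max (max T0 TP) (max TS TG)) (max (max TR TM) 11), ?_, ?_⟩
  · exact lt_of_lt_of_le (by norm_num) ((le_max_right _ _).trans (le_max_right _ _))
  intro T h hT hKh hh
  have gT0 : T0 ≤ T := ((le_max_left _ _).trans (le_max_left _ _)).trans ((le_max_left _ _).trans hT)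
  have gTP : TP ≤ T := ((le_max_right _ _).trans (le_max_left _ _)).trans ((le_max_left _ _).trans hT)
  have gTS : TS ≤ T := ((le_max_left _ _).trans (le_max_right _ _)).trans ((le_max_left _ _).trans hT)
  have gTG : TG ≤ T := ((le_max_right _ _).trans (le_max_right _ _)).trans ((le_max_left _ _).trans hT)
  have gTR : TR ≤ T := ((le_max_left _ _).trans (le_max_left _ _)).trans ((le_max_right _ _).trans hT)
  have gTM : TM ≤ T := ((le_max_right _ _).trans (le_max_left _ _)).trans ((le_max_right _ _).trans hT)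
  have gT11 : 11 ≤ T := (le_max_right _ _).trans ((le_max_right _ _).trans hT)
  obtain ⟨⟨h1, h2⟩, h3⟩ := hT0 T gT0
  have hTpos : 0 < T := by linarith
  have hh1 : 1 ≤ h := (one_le_pow₀ h1).trans hKh
  have hL0 : 0 ≤ Real.log T := Real.log_nonneg (by linarith)
  -- the sizes
  have hffle : ∀ n : ℕ, 0 ≤ ff η T n ∧ ff η T n ≤ bet n := fun n => hff η T n (by linarith) hη0
  have hfin : ∀ n : ℕ, 0 ≤ fin e η T n ∧ fin e η T n ≤ bet n := by
    intro n
    unfold fin
    split_ifs
    · exact ⟨le_refl _, (hbet n).1⟩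
    · exact hffle n
  have hbs : ∀ n : ℕ, bet n ≤ 4 * (1 + (n : ℝ)) := fun n =>
    (hbet n).2.trans ((log_sq_le n).trans (by linarith))
  have hβ : ∀ n : ℕ, |bet n - fin e η T n| ≤ 4 * (1 + (n : ℝ)) := by
    intro n
    rw [abs_of_nonneg (by linarith [(hfin n).2])]
    linarith [(hfin n).1, hbs n]
  have hfs : ∀ n : ℕ, |fin e η T n| ≤ 4 * (1 + (n : ℝ)) := by
    intro n
    rw [abs_of_nonneg (hfin n).1]
    exact (hfin n).2.trans (hbs n)
  have hsmo : ∀ n : ℕ, |smo A B n| ≤ (4 + |A| + |B|) * (1 + (n : ℝ)) := by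
    intro n
    unfold smo
    split_ifs with hn
    · rw [abs_zero]; positivity
    · have h4 : 0 ≤ Real.log n := Real.log_natCast_nonneg n
      have h5 : Real.log n ≤ n := Real.log_le_self (Nat.cast_nonneg n)
      have h6 := log_sq_le n
      have h7 : |Real.log n ^ 2 / 2 - A * Real.log n - B| ≤
          |Real.log n ^ 2 / 2| + |A * Real.log n| + |B| :=
        (abs_sub _ _).trans (add_le_add_left (abs_sub _ _) _)
      have h8 : |Real.log n ^ 2 / 2| = Real.log n ^ 2 / 2 := abs_of_nonneg (by positivity)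
      have h9 : |A * Real.log n| ≤ |A| * n := by
        rw [abs_mul, abs_of_nonneg h4]
        exact mul_le_mul_of_nonneg_left h5 (abs_nonneg _)
      have h10 : (0 : ℝ) ≤ n := Nat.cast_nonneg n
      have h11 := abs_nonneg A
      have h12 := abs_nonneg B
      nlinarith [mul_nonneg h12 h10]
  -- the decomposition
  have hdec : ∀ z : ℂ, 0 < z.re → EE A B z = ES (smo A B) z -
      ES (fun n => bet n - fin e η T n) z - EP (fun n => (fin e η T n : ℂ)) ⌊T / e⌋₊ z := by
    intro z hz
    rw [← ES_fin he0 hTpos]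
    unfold EE ES
    rw [← (summ hsmo hz).tsum_sub (summ hβ hz),
      ← ((summ hsmo hz).sub (summ hβ hz)).tsum_sub (summ hfs hz)]
    refine tsum_congr fun n => ?_
    rw [hbn]
    push_cast
    ring
  -- the smooth part
  have hsm : ∀ z ∈ mid a b T (Real.log T ^ 2) h,
      ‖ES (smo A B) z‖ ^ 2 ≤ CS ^ 2 * Real.log T ^ 8 := by
    intro z hz
    obtain ⟨⟨h4, h5⟩, h6, h7⟩ := hz
    have hlog2 : 0 < Real.log T ^ 2 := by
      have : 0 < Real.log T := Real.log_pos (by linarith)
      positivity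
    have h8 : 0 < |z.im| := lt_of_lt_of_le (by positivity) h6
    have h9 : |z.im| ≤ 1 := h7.trans (by rw [div_le_one (by linarith)]; exact hh1)
    have h10 := hS T z gTS h4 h5 h8 h9
    have h11 : CS * Real.log T ^ 2 / |z.im| ≤ CS * Real.log T ^ 4 := by
      rw [div_le_iff₀ h8]
      have h12 : 1 ≤ Real.log T ^ 2 * |z.im| := by
        rw [div_le_iff₀ hlog2] at h6
        linarith
      calc CS * Real.log T ^ 2 = CS * Real.log T ^ 2 * 1 := by ring
        _ ≤ CS * Real.log T ^ 2 * (Real.log T ^ 2 * |z.im|) :=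
            mul_le_mul_of_nonneg_left h12 (by positivity)
        _ = CS * Real.log T ^ 4 * |z.im| := by ring
    calc ‖ES (smo A B) z‖ ^ 2 ≤ (CS * Real.log T ^ 4) ^ 2 :=
          pow_le_pow_left₀ (norm_nonneg _) (h10.trans h11) 2
      _ = CS ^ 2 * Real.log T ^ 8 := by ring
  -- the small part
  obtain ⟨hAs, -⟩ := hA T (by linarith)
  have hmain : ∫⁻ z in strip a b 1 T,
      ENNReal.ofReal (‖ES (fun n => bet n - fin e η T n) z‖ ^ 2) ≤
      ENNReal.ofReal (ε / 9 * Real.log T ^ 4) := by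
    refine (hX T _ (by linarith) ⟨4, hβ⟩).trans (ENNReal.ofReal_le_ofReal ?_)
    have hb4 : ∀ n : ℕ, Real.log n ^ 4 ≤ (1 + Real.log n) ^ 4 := fun n =>
      pow_le_pow_left₀ (Real.log_natCast_nonneg n) (by linarith) 4
    have hx0 : ∀ n : ℕ, 0 ≤ Real.exp (-(2 * a / T * n)) := fun n => (Real.exp_pos _).le
    have s1 : Summable fun n : ℕ => (bet n - ff η T n) ^ 2 * Real.exp (-(2 * a / T * n)) := by
      refine Summable.of_nonneg_of_le (fun n => mul_nonneg (sq_nonneg _) (hx0 n)) (fun n => ?_) hAs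
      refine mul_le_mul_of_nonneg_right (le_trans ?_ (hb4 n)) (hx0 n)
      calc (bet n - ff η T n) ^ 2 ≤ (Real.log n ^ 2) ^ 2 := by
            refine pow_le_pow_left₀ (by linarith [(hffle n).2]) ?_ 2
            linarith [(hffle n).1, (hbet n).2]
        _ = Real.log n ^ 4 := by ring
    have s2 : Summable fun n : ℕ => (if (n : ℝ) ≤ e * T ∨ T / e < n then
        Real.log n ^ 4 * Real.exp (-(2 * a / T * n)) else 0) := by
      refine Summable.of_nonneg_of_le (fun n => ?_) (fun n => ?_) hAs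
      · split_ifs
        · exact mul_nonneg (by positivity) (hx0 n)
        · exact le_refl _
      · split_ifs
        · exact mul_le_mul_of_nonneg_right (hb4 n) (hx0 n)
        · exact mul_nonneg (by positivity) (hx0 n)
    have hpt : ∀ n : ℕ, (bet n - fin e η T n) ^ 2 * Real.exp (-(2 * a / T * n)) ≤
        (bet n - ff η T n) ^ 2 * Real.exp (-(2 * a / T * n)) +
          (if (n : ℝ) ≤ e * T ∨ T / e < n then
            Real.log n ^ 4 * Real.exp (-(2 * a / T * n)) else 0) := by
      intro n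
      unfold fin
      split_ifs with hc
      · rw [sub_zero]
        have h4 : bet n ^ 2 ≤ Real.log n ^ 4 := by
          calc bet n ^ 2 ≤ (Real.log n ^ 2) ^ 2 := pow_le_pow_left₀ (hbet n).1 (hbet n).2 2
            _ = Real.log n ^ 4 := by ring
        have h5 := mul_le_mul_of_nonneg_right h4 (hx0 n)
        have h6 := mul_nonneg (sq_nonneg (bet n - ff η T n)) (hx0 n)
        linarith
      · rw [add_zero]
    have s3 : Summable fun n : ℕ => (bet n - fin e η T n) ^ 2 * Real.exp (-(2 * a / T * n)) :=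
      Summable.of_nonneg_of_le (fun n => mul_nonneg (sq_nonneg _) (hx0 n)) hpt (s1.add s2)
    have h4 : ∑' n : ℕ, (bet n - fin e η T n) ^ 2 * Real.exp (-(2 * a / T * n)) ≤
        CG * η ^ 2 * T * Real.log T ^ 4 + CR * e * T * Real.log T ^ 4 := by
      calc _ ≤ ∑' n : ℕ, ((bet n - ff η T n) ^ 2 * Real.exp (-(2 * a / T * n)) +
            (if (n : ℝ) ≤ e * T ∨ T / e < n then
              Real.log n ^ 4 * Real.exp (-(2 * a / T * n)) else 0)) :=
            s3.tsum_le_tsum hpt (s1.add s2)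
        _ = _ := s1.tsum_add s2
        _ ≤ _ := add_le_add (hG T gTG) (hR T gTR)
    have h5 : η ^ 2 ≤ η := by nlinarith
    calc CX / T * ∑' n : ℕ, (bet n - fin e η T n) ^ 2 * Real.exp (-(2 * a / T * n))
        ≤ CX / T * (CG * η ^ 2 * T * Real.log T ^ 4 + CR * e * T * Real.log T ^ 4) :=
          mul_le_mul_of_nonneg_left h4 (by positivity)
      _ = (CX * CG * η ^ 2 + CX * CR * e) * Real.log T ^ 4 := by field_simp
      _ ≤ (ε / 18 + ε / 18) * Real.log T ^ 4 := by
          refine mul_le_mul_of_nonneg_right (add_le_add ?_ heb) (by positivity)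
          exact (mul_le_mul_of_nonneg_left h5 (by positivity)).trans hηb
      _ = ε / 9 * Real.log T ^ 4 := by ring
  -- the Dirichlet polynomial
  have hmel : ∫⁻ z in mid a b T (Real.log T ^ 2) h,
      ENNReal.ofReal (‖EP (fun n => (fin e η T n : ℂ)) ⌊T / e⌋₊ z‖ ^ 2) ≤
      ENNReal.ofReal (ε / 9 * Real.log T ^ 4) := by
    refine (hP T h (Real.log T ^ 2) gTP hh1 hh h2 _ _).trans ?_
    simp_rw [DP_fin he0 hTpos]
    refine (mul_le_mul_right (hM T h gTM hKh hh) _).trans ?_
    rw [← ENNReal.ofReal_mul hCP.le]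
    refine ENNReal.ofReal_le_ofReal (le_of_eq ?_)
    field_simp
  -- all together
  have hmeas : MeasurableSet (mid a b T (Real.log T ^ 2) h) := by
    unfold mid
    refine MeasurableSet.inter (MeasurableSet.inter ?_ ?_) (MeasurableSet.inter ?_ ?_)
    · exact measurableSet_le measurable_const Complex.measurable_re
    · exact measurableSet_le Complex.measurable_re measurable_const
    · exact measurableSet_le measurable_const (continuous_abs.measurable.comp Complex.measurable_im)
    · exact measurableSet_le (continuous_abs.measurable.comp Complex.measurable_im) measurable_const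
  have hsub : mid a b T (Real.log T ^ 2) h ⊆ strip a b 1 T := by
    intro z hz
    obtain ⟨⟨h4, h5⟩, -, h7⟩ := hz
    exact ⟨h4, h5, h7.trans (by rw [div_le_one (by linarith)]; exact hh1)⟩
  have hle : ∀ z ∈ mid a b T (Real.log T ^ 2) h, ENNReal.ofReal (‖EE A B z‖ ^ 2) ≤
      ENNReal.ofReal (3 * (CS ^ 2 * Real.log T ^ 8)) +
        (3 * ENNReal.ofReal (‖EP (fun n => (fin e η T n : ℂ)) ⌊T / e⌋₊ z‖ ^ 2) +
        3 * ENNReal.ofReal (‖ES (fun n => bet n - fin e η T n) z‖ ^ 2)) := by
    intro z hz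
    have hre : 0 < z.re := lt_of_lt_of_le (div_pos ha hTpos) hz.1.1
    rw [hdec z hre]
    have e3 : (3 : ℝ≥0∞) = ENNReal.ofReal 3 := (ENNReal.ofReal_ofNat 3).symm
    rw [e3, ← ENNReal.ofReal_mul (by norm_num), ← ENNReal.ofReal_mul (by norm_num),
      ← ENNReal.ofReal_add (by positivity) (by positivity),
      ← ENNReal.ofReal_add (by positivity) (by positivity)]
    refine ENNReal.ofReal_le_ofReal (three.trans ?_)
    have := hsm z hz
    linarith
  calc ∫⁻ z in mid a b T (Real.log T ^ 2) h, ENNReal.ofReal (‖EE A B z‖ ^ 2)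
      ≤ ∫⁻ z in mid a b T (Real.log T ^ 2) h, (ENNReal.ofReal (3 * (CS ^ 2 * Real.log T ^ 8)) +
        (3 * ENNReal.ofReal (‖EP (fun n => (fin e η T n : ℂ)) ⌊T / e⌋₊ z‖ ^ 2) +
        3 * ENNReal.ofReal (‖ES (fun n => bet n - fin e η T n) z‖ ^ 2))) :=
        setLIntegral_mono' hmeas hle
    _ = ENNReal.ofReal (3 * (CS ^ 2 * Real.log T ^ 8)) * volume (mid a b T (Real.log T ^ 2) h) +
        (3 * (∫⁻ z in mid a b T (Real.log T ^ 2) h,
          ENNReal.ofReal (‖EP (fun n => (fin e η T n : ℂ)) ⌊T / e⌋₊ z‖ ^ 2)) +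
        3 * (∫⁻ z in mid a b T (Real.log T ^ 2) h,
          ENNReal.ofReal (‖ES (fun n => bet n - fin e η T n) z‖ ^ 2))) := by
        have hm1 : Measurable fun z : ℂ =>
            ENNReal.ofReal (‖EP (fun n => (fin e η T n : ℂ)) ⌊T / e⌋₊ z‖ ^ 2) :=
          ((cont_EP _ _).norm.pow 2).measurable.ennreal_ofReal
        rw [lintegral_add_left measurable_const, lintegral_add_left (hm1.const_mul 3),
          lintegral_const_mul _ hm1, lintegral_const_mul' _ _ (by norm_num), setLIntegral_const]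
    _ ≤ ENNReal.ofReal (3 * (CS ^ 2 * Real.log T ^ 8)) * ENNReal.ofReal (2 * (b - a) / T) +
        (3 * ENNReal.ofReal (ε / 9 * Real.log T ^ 4) +
          3 * ENNReal.ofReal (ε / 9 * Real.log T ^ 4)) := by
        refine add_le_add (mul_le_mul_right (vol_le hTpos hab hh1) _)
          (add_le_add (mul_le_mul_right hmel _) (mul_le_mul_right ?_ _))
        exact (lintegral_mono_set hsub).trans hmain
    _ ≤ ENNReal.ofReal (ε * Real.log T ^ 4) := by
        have e3 : (3 : ℝ≥0∞) = ENNReal.ofReal 3 := (ENNReal.ofReal_ofNat 3).symm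
        have hba : 0 < b - a := by linarith
        have eA : ENNReal.ofReal (3 * (CS ^ 2 * Real.log T ^ 8)) *
            ENNReal.ofReal (2 * (b - a) / T) =
            ENNReal.ofReal (3 * (CS ^ 2 * Real.log T ^ 8) * (2 * (b - a) / T)) :=
          (ENNReal.ofReal_mul (by positivity)).symm
        have eB : (3 : ℝ≥0∞) * ENNReal.ofReal (ε / 9 * Real.log T ^ 4) =
            ENNReal.ofReal (ε / 3 * Real.log T ^ 4) := by
          rw [e3, ← ENNReal.ofReal_mul (by norm_num)]
          congr 1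
          ring
        rw [eA, eB, ← ENNReal.ofReal_add (by positivity) (by positivity),
          ← ENNReal.ofReal_add (by positivity) (by positivity)]
        refine ENNReal.ofReal_le_ofReal ?_
        have h4 : 3 * (CS ^ 2 * Real.log T ^ 8) * (2 * (b - a) / T) ≤
            ε / 3 * Real.log T ^ 4 := by
          rw [mul_div_assoc', div_le_iff₀ hTpos]
          have h5 := mul_le_mul_of_nonneg_right h3 (by positivity : 0 ≤ Real.log T ^ 4)
          nlinarith
        linarith

end Pool.Agent.Lib.MP_6bc78b_nt.GP.H34M
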