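import Pool.Agent.Lib.MP_6bc78b_nt.GP.H92.Avgw
import Pool.Agent.Lib.MP_6bc78b_nt.GP.H38.Dx2

/-! Project GP7, row TAI7, part 1: Parseval on whole periods and the size of the series. -/

set_option autoImplicit false

open Complex Filter Topology MeasureTheory ArithmeticFunction Set
open scoped ENNReal ComplexConjugate

namespace Pool.Agent.Lib.MP_6bc78b_nt.GP.H34T

/-- One exponential on whole periods. -/
lemma int_exp {k : ℤ} (hk : k ≠ 0) (y0 : ℝ) (M : ℕ) :
    ∫ y in y0..(y0 + 2 * Real.pi * M), Complex.exp ((k * I : ℂ) * y) = 0 := by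
  have hc : (k * I : ℂ) ≠ 0 := mul_ne_zero (Int.cast_ne_zero.2 hk) I_ne_zero
  rw [integral_exp_mul_complex hc]
  have h1 : Complex.exp ((k * I : ℂ) * ((y0 + 2 * Real.pi * M : ℝ) : ℂ)) =
      Complex.exp ((k * I : ℂ) * y0) := by
    have e1 : (k * I : ℂ) * ((y0 + 2 * Real.pi * M : ℝ) : ℂ) =
        (k * I : ℂ) * y0 + ((k * M : ℤ) : ℂ) * (2 * Real.pi * I) := by
      push_cast
      ring
    rw [e1, Complex.exp_add, Complex.exp_int_mul_two_pi_mul_I, mul_one]
  rw [h1, sub_self, zero_div]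

/-- Parseval for a finite sum on whole periods. -/
lemma parseval_fin (s : Finset ℕ) (d : ℕ → ℝ) (y0 : ℝ) (M : ℕ) :
    ∫ y in y0..(y0 + 2 * Real.pi * M),
      ‖∑ n ∈ s, (d n : ℂ) * Complex.exp (-(n * (y * I)))‖ ^ 2 =
      2 * Real.pi * M * ∑ n ∈ s, d n ^ 2 := by
  have h1 : ∀ y : ℝ, ((‖∑ n ∈ s, (d n : ℂ) * Complex.exp (-(n * (y * I)))‖ ^ 2 : ℝ) : ℂ) =
      ∑ n ∈ s, ∑ m ∈ s, ((d n * d m : ℝ) : ℂ) *
        Complex.exp ((((m : ℤ) - (n : ℤ) : ℤ) * I : ℂ) * y) := by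
    intro y
    push_cast
    rw [← Complex.mul_conj', map_sum, Finset.sum_mul_sum]
    refine Finset.sum_congr rfl fun n _ => Finset.sum_congr rfl fun m _ => ?_
    rw [map_mul, Complex.conj_ofReal, ← Complex.exp_conj, mul_mul_mul_comm, ← Complex.exp_add]
    congr 2
    simp only [map_neg, map_mul, Complex.conj_natCast, Complex.conj_ofReal, Complex.conj_I]
    ring
  have h2 : ((∫ y in y0..(y0 + 2 * Real.pi * M),
      ‖∑ n ∈ s, (d n : ℂ) * Complex.exp (-(n * (y * I)))‖ ^ 2 : ℝ) : ℂ) =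
      ((2 * Real.pi * M * ∑ n ∈ s, d n ^ 2 : ℝ) : ℂ) := by
    rw [← intervalIntegral.integral_ofReal]
    simp only [h1]
    rw [intervalIntegral.integral_finsetSum]
    · push_cast
      rw [Finset.mul_sum]
      refine Finset.sum_congr rfl fun n hn => ?_
      rw [intervalIntegral.integral_finsetSum]
      · rw [Finset.sum_eq_single n]
        · rw [intervalIntegral.integral_const_mul]
          simp only [sub_self, zero_mul, Complex.exp_zero]
          rw [intervalIntegral.integral_const]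
          simp only [add_sub_cancel_left, Complex.real_smul]
          push_cast
          ring
        · intro m _ hm
          have e0 : ((m : ℂ) - (n : ℂ)) = (((m : ℤ) - (n : ℤ) : ℤ) : ℂ) := by push_cast; rfl
          have e1 : ((m : ℤ) - (n : ℤ) : ℤ) ≠ 0 := by
            intro h
            apply hm
            omega
          rw [intervalIntegral.integral_const_mul, e0, int_exp e1, mul_zero]
        · intro h
          exact absurd hn h
      · intro m _
        exact Continuous.intervalIntegrable (by fun_prop) _ _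
    · intro n _
      exact Continuous.intervalIntegrable (by fun_prop) _ _
  exact_mod_cast h2

/-- The finite sums in mean square on an interval. -/
lemma fin_le (s : Finset ℕ) (d : ℕ → ℝ) (y0 y1 : ℝ) (hy : y0 ≤ y1) :
    ∫⁻ y in Icc y0 y1, ENNReal.ofReal
      (‖∑ n ∈ s, (d n : ℂ) * Complex.exp (-(n * (y * I)))‖ ^ 2) ≤
      ENNReal.ofReal ((y1 - y0 + 2 * Real.pi) * ∑ n ∈ s, d n ^ 2) := by
  have hpi := Real.pi_pos
  set M : ℕ := ⌈(y1 - y0) / (2 * Real.pi)⌉₊ with hM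
  have hM1 : y1 ≤ y0 + 2 * Real.pi * M := by
    have h := Nat.le_ceil ((y1 - y0) / (2 * Real.pi))
    rw [div_le_iff₀ (by positivity)] at h
    rw [hM]
    linarith
  have hM2 : 2 * Real.pi * M ≤ y1 - y0 + 2 * Real.pi := by
    have h := Nat.ceil_lt_add_one (div_nonneg (sub_nonneg.2 hy) (by positivity : 0 ≤ 2 * Real.pi))
    have h2 : (M : ℝ) * (2 * Real.pi) ≤ ((y1 - y0) / (2 * Real.pi) + 1) * (2 * Real.pi) :=
      mul_le_mul_of_nonneg_right h.le (by positivity)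
    rw [add_mul, div_mul_cancel₀ _ (by positivity)] at h2
    linarith
  have hcont : Continuous fun y : ℝ =>
      ‖∑ n ∈ s, (d n : ℂ) * Complex.exp (-(n * (y * I)))‖ ^ 2 := by fun_prop
  calc ∫⁻ y in Icc y0 y1, ENNReal.ofReal
        (‖∑ n ∈ s, (d n : ℂ) * Complex.exp (-(n * (y * I)))‖ ^ 2)
      ≤ ∫⁻ y in Icc y0 (y0 + 2 * Real.pi * M), ENNReal.ofReal
        (‖∑ n ∈ s, (d n : ℂ) * Complex.exp (-(n * (y * I)))‖ ^ 2) :=
        lintegral_mono_set (Icc_subset_Icc_right hM1)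
    _ = ENNReal.ofReal (∫ y in Icc y0 (y0 + 2 * Real.pi * M),
        ‖∑ n ∈ s, (d n : ℂ) * Complex.exp (-(n * (y * I)))‖ ^ 2) := by
        rw [ofReal_integral_eq_lintegral_ofReal]
        · exact hcont.continuousOn.integrableOn_Icc
        · exact Filter.Eventually.of_forall fun y => by positivity
    _ = ENNReal.ofReal (2 * Real.pi * M * ∑ n ∈ s, d n ^ 2) := by
        rw [integral_Icc_eq_integral_Ioc, ← intervalIntegral.integral_of_le (hy.trans hM1),
          parseval_fin]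
    _ ≤ _ := ENNReal.ofReal_le_ofReal
        (mul_le_mul_of_nonneg_right hM2 (Finset.sum_nonneg fun n _ => sq_nonneg _))

/-- The series in mean square on an interval. -/
lemma ser_le (α : ℕ → ℝ) (x K : ℝ)
    (hs : ∀ y : ℝ, Summable fun n : ℕ => (α n : ℂ) * Complex.exp (-(n * (x + y * I))))
    (hK : ∀ N : ℕ, ∑ n ∈ Finset.range N, (α n * Real.exp (-(n * x))) ^ 2 ≤ K)
    (y0 y1 : ℝ) (hy : y0 ≤ y1) :
    ∫⁻ y in Icc y0 y1, ENNReal.ofReal
      (‖∑' n : ℕ, (α n : ℂ) * Complex.exp (-(n * (x + y * I)))‖ ^ 2) ≤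
      ENNReal.ofReal ((y1 - y0 + 2 * Real.pi) * K) := by
  have hpi := Real.pi_pos
  have h1 : ∀ (N : ℕ) (y : ℝ), ∑ n ∈ Finset.range N,
      (α n : ℂ) * Complex.exp (-(n * (x + y * I))) =
      ∑ n ∈ Finset.range N, ((α n * Real.exp (-(n * x)) : ℝ) : ℂ) *
        Complex.exp (-(n * (y * I))) := by
    intro N y
    refine Finset.sum_congr rfl fun n _ => ?_
    push_cast
    rw [mul_assoc, ← Complex.exp_add]
    congr 2
    ring
  have h2 : ∀ y : ℝ, ENNReal.ofReal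
      (‖∑' n : ℕ, (α n : ℂ) * Complex.exp (-(n * (x + y * I)))‖ ^ 2) =
      liminf (fun N : ℕ => ENNReal.ofReal (‖∑ n ∈ Finset.range N,
        ((α n * Real.exp (-(n * x)) : ℝ) : ℂ) * Complex.exp (-(n * (y * I)))‖ ^ 2)) atTop := by
    intro y
    refine (Filter.Tendsto.liminf_eq ?_).symm
    refine ENNReal.tendsto_ofReal ?_
    refine Filter.Tendsto.pow (Filter.Tendsto.norm ?_) 2
    simp only [← h1]
    exact (hs y).hasSum.tendsto_sum_nat
  simp only [h2]
  refine (lintegral_liminf_le fun N => ?_).trans ?_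
  · refine Measurable.ennreal_ofReal (Continuous.measurable ?_)
    fun_prop
  · refine (Filter.liminf_le_liminf (v := fun _ => ENNReal.ofReal ((y1 - y0 + 2 * Real.pi) * K))
      (Filter.Eventually.of_forall fun N => ?_)).trans ?_
    · refine (fin_le _ _ y0 y1 hy).trans (ENNReal.ofReal_le_ofReal ?_)
      exact mul_le_mul_of_nonneg_left (hK N) (by linarith)
    · rw [Filter.liminf_const]

/-- `∑_{1 ≤ n < N} e^{-nx} ≤ 1/x`. -/
lemma geo_le {x : ℝ} (hx : 0 < x) (N : ℕ) :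
    ∑ n ∈ Finset.range N, Real.exp (-x) ^ (n + 1) ≤ 1 / x := by
  set r : ℝ := Real.exp (-x) with hr
  have hr0 : 0 < r := Real.exp_pos _
  have hr1 : r < 1 := by
    rw [hr, ← Real.exp_zero]
    exact Real.exp_lt_exp.2 (by linarith)
  have h1 : ∑ n ∈ Finset.range N, r ^ n ≤ (1 - r)⁻¹ :=
    sum_le_hasSum _ (fun n _ => by positivity) (hasSum_geometric_of_lt_one hr0.le hr1)
  have h2 : ∑ n ∈ Finset.range N, r ^ (n + 1) = r * ∑ n ∈ Finset.range N, r ^ n := by
    rw [Finset.mul_sum]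
    refine Finset.sum_congr rfl fun n _ => ?_
    ring
  rw [h2]
  have h3 : r * (1 + x) ≤ 1 := by
    have h4 : 1 + x ≤ Real.exp x := by linarith [Real.add_one_le_exp x]
    calc r * (1 + x) ≤ r * Real.exp x := mul_le_mul_of_nonneg_left h4 hr0.le
      _ = 1 := by rw [hr, ← Real.exp_add]; simp
  have h5 : 0 < 1 - r := by linarith
  calc r * ∑ n ∈ Finset.range N, r ^ n ≤ r * (1 - r)⁻¹ := mul_le_mul_of_nonneg_left h1 hr0.le
    _ ≤ 1 / x := by
      rw [← div_eq_mul_inv, div_le_div_iff₀ h5 hx]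
      linarith

/-- `(1 + log n)⁴ e^{-2nx} ≤ 72 ℓ⁴ e^{-nx}`. -/
lemma term_le {x : ℝ} (hx : 0 < x) (n : ℕ) :
    (1 + Real.log ((n + 1 : ℕ) : ℝ)) ^ 4 * Real.exp (-(2 * ((n + 1 : ℕ) : ℝ) * x)) ≤
      72 * (1 + Real.log (1 + 1 / x)) ^ 4 * Real.exp (-x) ^ (n + 1) := by
  set v : ℝ := ((n + 1 : ℕ) : ℝ) * x with hv
  have hn1 : (1 : ℝ) ≤ ((n + 1 : ℕ) : ℝ) := by
    push_cast
    linarith [(Nat.cast_nonneg n : (0 : ℝ) ≤ n)]
  have hv0 : 0 < v := by positivity
  have hl0 : 0 ≤ Real.log (1 + 1 / x) := Real.log_nonneg (by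
    have : 0 < 1 / x := by positivity
    linarith)
  have hlv : 0 ≤ Real.log (1 + v) := Real.log_nonneg (by linarith)
  have h1 : Real.log ((n + 1 : ℕ) : ℝ) ≤ Real.log (1 + 1 / x) + Real.log (1 + v) := by
    rw [← Real.log_mul (by positivity) (by positivity)]
    refine Real.log_le_log (by linarith) ?_
    have e1 : (1 + 1 / x) * (1 + v) = 1 + v + 1 / x + ((n + 1 : ℕ) : ℝ) := by
      rw [hv]
      field_simp
      ring
    rw [e1]
    have : 0 < 1 / x := by positivity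
    linarith
  have h2 : Real.log (1 + v) ≤ v := by
    have := Real.log_le_sub_one_of_pos (by linarith : 0 < 1 + v)
    linarith
  have h3 : 1 + Real.log ((n + 1 : ℕ) : ℝ) ≤ (1 + Real.log (1 + 1 / x)) * (1 + v) := by
    nlinarith
  have h4 : (1 + Real.log ((n + 1 : ℕ) : ℝ)) ^ 4 ≤ ((1 + Real.log (1 + 1 / x)) * (1 + v)) ^ 4 :=
    pow_le_pow_left₀ (by linarith [Real.log_nonneg hn1]) h3 4
  have h5 : (1 + v) ^ 4 ≤ 72 * Real.exp v := by
    have h6 := Real.pow_div_factorial_le_exp (1 + v) (by linarith) 4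
    rw [Real.exp_add] at h6
    have h7 := Real.exp_one_lt_d9
    have h8 : (1 + v) ^ 4 ≤ 24 * (Real.exp 1 * Real.exp v) := by
      have : ((Nat.factorial 4 : ℕ) : ℝ) = 24 := by norm_num [Nat.factorial]
      rw [this, div_le_iff₀ (by norm_num)] at h6
      linarith
    refine h8.trans ?_
    have h9 : Real.exp 1 * Real.exp v ≤ 3 * Real.exp v :=
      mul_le_mul_of_nonneg_right (by linarith) (Real.exp_pos _).le
    linarith
  have e2 : Real.exp (-(2 * ((n + 1 : ℕ) : ℝ) * x)) = Real.exp (-v) * Real.exp (-v) := by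
    rw [← Real.exp_add]
    congr 1
    rw [hv]
    ring
  have e3 : Real.exp (-x) ^ (n + 1) = Real.exp (-v) := by
    rw [← Real.exp_nat_mul]
    congr 1
    rw [hv]
    ring
  rw [e2, e3]
  calc (1 + Real.log ((n + 1 : ℕ) : ℝ)) ^ 4 * (Real.exp (-v) * Real.exp (-v))
      ≤ ((1 + Real.log (1 + 1 / x)) * (1 + v)) ^ 4 * (Real.exp (-v) * Real.exp (-v)) :=
        mul_le_mul_of_nonneg_right h4 (by positivity)
    _ = (1 + Real.log (1 + 1 / x)) ^ 4 * Real.exp (-v) * ((1 + v) ^ 4 * Real.exp (-v)) := by ring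
    _ ≤ (1 + Real.log (1 + 1 / x)) ^ 4 * Real.exp (-v) * 72 := by
        refine mul_le_mul_of_nonneg_left ?_ (by positivity)
        calc (1 + v) ^ 4 * Real.exp (-v) ≤ 72 * Real.exp v * Real.exp (-v) :=
              mul_le_mul_of_nonneg_right h5 (Real.exp_pos _).le
          _ = 72 := by
              rw [mul_assoc, ← Real.exp_add]
              simp
    _ = _ := by ring

/-- The size of the squares. -/
lemma size_le (α : ℕ → ℝ) (C : ℝ) (hα0 : α 0 = 0)
    (hα : ∀ n : ℕ, |α n| ≤ C * (1 + Real.log n) ^ 2) {x : ℝ} (hx : 0 < x) (N : ℕ) :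
    ∑ n ∈ Finset.range N, (α n * Real.exp (-(n * x))) ^ 2 ≤
      72 * C ^ 2 * (1 + Real.log (1 + 1 / x)) ^ 4 / x := by
  have hl0 : 0 ≤ Real.log (1 + 1 / x) := Real.log_nonneg (by
    have : 0 < 1 / x := by positivity
    linarith)
  have hK : 0 ≤ 72 * C ^ 2 * (1 + Real.log (1 + 1 / x)) ^ 4 / x := by positivity
  rcases N with _ | N
  · simpa using hK
  rw [Finset.sum_range_succ', hα0]
  simp only [zero_mul, ne_eq, OfNat.ofNat_ne_zero, not_false_eq_true, zero_pow, add_zero]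
  have h1 : ∀ n ∈ Finset.range N, (α (n + 1) * Real.exp (-(((n + 1 : ℕ) : ℝ) * x))) ^ 2 ≤
      C ^ 2 * (72 * (1 + Real.log (1 + 1 / x)) ^ 4) * Real.exp (-x) ^ (n + 1) := by
    intro n _
    have h2 : α (n + 1) ^ 2 ≤ (C * (1 + Real.log ((n + 1 : ℕ) : ℝ)) ^ 2) ^ 2 := by
      rw [← sq_abs]
      exact pow_le_pow_left₀ (abs_nonneg _) (hα (n + 1)) 2
    have h3 := term_le hx n
    have e1 : Real.exp (-(((n + 1 : ℕ) : ℝ) * x)) ^ 2 =
        Real.exp (-(2 * ((n + 1 : ℕ) : ℝ) * x)) := by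
      rw [← Real.exp_nat_mul]
      congr 1
      push_cast
      ring
    rw [mul_pow, e1]
    calc α (n + 1) ^ 2 * Real.exp (-(2 * ((n + 1 : ℕ) : ℝ) * x))
        ≤ (C * (1 + Real.log ((n + 1 : ℕ) : ℝ)) ^ 2) ^ 2 *
          Real.exp (-(2 * ((n + 1 : ℕ) : ℝ) * x)) :=
          mul_le_mul_of_nonneg_right h2 (Real.exp_pos _).le
      _ = C ^ 2 * ((1 + Real.log ((n + 1 : ℕ) : ℝ)) ^ 4 *
          Real.exp (-(2 * ((n + 1 : ℕ) : ℝ) * x))) := by ring
      _ ≤ C ^ 2 * (72 * (1 + Real.log (1 + 1 / x)) ^ 4 * Real.exp (-x) ^ (n + 1)) :=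
          mul_le_mul_of_nonneg_left h3 (sq_nonneg C)
      _ = _ := by ring
  refine (Finset.sum_le_sum h1).trans ?_
  rw [← Finset.mul_sum]
  calc C ^ 2 * (72 * (1 + Real.log (1 + 1 / x)) ^ 4) *
        ∑ n ∈ Finset.range N, Real.exp (-x) ^ (n + 1)
      ≤ C ^ 2 * (72 * (1 + Real.log (1 + 1 / x)) ^ 4) * (1 / x) :=
        mul_le_mul_of_nonneg_left (geo_le hx N) (by positivity)
    _ = _ := by ring

end Pool.Agent.Lib.MP_6bc78b_nt.GP.H34T
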