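import Pool.Agent.Lib.MP_6bc78b_nt.GP.H62.Defs7
import Pool.Agent.Lib.MP_6bc78b_nt.GP.H76.Chv
import Pool.Agent.Lib.MP_6bc78b_nt.GP.H34.TaiA

/-! Project GP7, row TAI7: the part `|u| > 1/2`. -/

set_option autoImplicit false

open Complex Filter Topology MeasureTheory ArithmeticFunction Set
open scoped ENNReal ComplexConjugate

namespace Pool.Agent.Lib.MP_6bc78b_nt.GP.H34T

open Pool.Agent.Lib.MP_6bc78b_nt.MS Pool.Agent.Lib.MP_6bc78b_nt.MS.P1
open H76

/-- The box number `k`. -/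
def BX (k : ℤ) (T : ℝ) : Set ℂ :=
  {w : ℂ | w.re ∈ Icc (k : ℝ) (k + 1) ∧ w.im ∈ Icc (1 / T) (2 / T)}

lemma measurableSet_BX (k : ℤ) (T : ℝ) : MeasurableSet (BX k T) :=
  (Complex.measurable_re measurableSet_Icc).inter (Complex.measurable_im measurableSet_Icc)

/-- The rectangle that contains the image. -/
def RC (k : ℤ) (T : ℝ) : Set ℂ :=
  {z : ℂ | z.re ∈ Icc (5 * Real.exp k / T) (35 * Real.exp k / T) ∧
    z.im ∈ Icc (-(2 * Real.pi)) (2 * Real.pi * Real.exp (k + 1))}

lemma injOn_BX {T : ℝ} (hT : 10 ≤ T) (k : ℤ) : InjOn ph (BX k T) := by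
  intro x hx y hy hxy
  have hpi := Real.pi_pos
  have e1 : Real.exp x.re * Real.sin x.im = Real.exp y.re * Real.sin y.im := by
    have h := congrArg Complex.re hxy
    rw [ph_re, ph_re] at h
    exact mul_left_cancel₀ (by positivity) h
  have e2 : Real.exp x.re * Real.cos x.im = Real.exp y.re * Real.cos y.im := by
    have h := congrArg Complex.im hxy
    rw [ph_im, ph_im] at h
    have := mul_left_cancel₀ (by positivity) h
    linarith
  have e3 : Real.exp x.re ^ 2 = Real.exp y.re ^ 2 := by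
    have hx2 := Real.sin_sq_add_cos_sq x.im
    have hy2 := Real.sin_sq_add_cos_sq y.im
    calc Real.exp x.re ^ 2 = (Real.exp x.re * Real.sin x.im) ^ 2
          + (Real.exp x.re * Real.cos x.im) ^ 2 := by
          rw [mul_pow, mul_pow, ← mul_add, hx2, mul_one]
      _ = (Real.exp y.re * Real.sin y.im) ^ 2 + (Real.exp y.re * Real.cos y.im) ^ 2 := by
          rw [e1, e2]
      _ = Real.exp y.re ^ 2 := by rw [mul_pow, mul_pow, ← mul_add, hy2, mul_one]
  have e4 : Real.exp x.re = Real.exp y.re := by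
    have := (sq_eq_sq₀ (Real.exp_pos _).le (Real.exp_pos _).le).1 e3
    exact this
  have e5 : x.re = y.re := Real.exp_injective e4
  have e6 : Real.sin x.im = Real.sin y.im := by
    rw [e4] at e1
    exact mul_left_cancel₀ (Real.exp_pos _).ne' e1
  have hb : (2 : ℝ) / T ≤ 1 / 5 := by
    rw [div_le_div_iff₀ (by linarith) (by norm_num)]
    linarith
  have h0 : (0 : ℝ) < 1 / T := by positivity
  have hpi3 : (3 : ℝ) < Real.pi := Real.pi_gt_three
  have e7 : x.im = y.im := by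
    apply Real.injOn_sin _ _ e6
    · exact ⟨by linarith [hx.2.1], by linarith [hx.2.2]⟩
    · exact ⟨by linarith [hy.2.1], by linarith [hy.2.2]⟩
  exact Complex.ext e5 e7

lemma image_BX {T : ℝ} (hT : 10 ≤ T) (k : ℤ) : ph '' (BX k T) ⊆ RC k T := by
  rintro _ ⟨w, hw, rfl⟩
  have hTp : 0 < T := by linarith
  have hpi3 : (3 : ℝ) < Real.pi := Real.pi_gt_three
  have hpi4 : Real.pi < 3.15 := Real.pi_lt_d2
  have h0 : (0 : ℝ) < 1 / T := by positivity
  have hb : (2 : ℝ) / T ≤ 1 / 5 := by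
    rw [div_le_div_iff₀ (by linarith) (by norm_num)]
    linarith
  obtain ⟨⟨hu1, hu2⟩, hd1, hd2⟩ := hw
  have hd0 : 0 < w.im := by linarith
  have hd5 : w.im ≤ 1 / 5 := by linarith
  have hek : 0 < Real.exp (k : ℝ) := Real.exp_pos _
  have hexp1 : Real.exp (k : ℝ) ≤ Real.exp w.re := Real.exp_le_exp.2 hu1
  have hexp2 : Real.exp w.re ≤ Real.exp ((k : ℝ) + 1) := Real.exp_le_exp.2 hu2
  have hexp3 : Real.exp ((k : ℝ) + 1) ≤ 2.72 * Real.exp (k : ℝ) := by
    rw [Real.exp_add, mul_comm]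
    refine mul_le_mul_of_nonneg_right ?_ hek.le
    have := Real.exp_one_lt_d9
    linarith
  have hsin1 : w.im - w.im ^ 3 / 6 < Real.sin w.im := Real.sin_gt_sub_cube hd0
  have hsin2 : Real.sin w.im ≤ w.im := Real.sin_le hd0.le
  have hsin3 : 0.9 * w.im ≤ Real.sin w.im := by
    have hq : w.im ^ 2 ≤ (1 / 5) ^ 2 := pow_le_pow_left₀ hd0.le hd5 2
    have hc : w.im ^ 3 ≤ w.im * (1 / 5) ^ 2 := by
      rw [pow_succ, mul_comm]
      exact mul_le_mul_of_nonneg_left hq hd0.le
    linarith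
  refine ⟨⟨?_, ?_⟩, ⟨?_, ?_⟩⟩
  · rw [ph_re]
    have h2 : Real.exp (k : ℝ) * (0.9 * (1 / T)) ≤ Real.exp w.re * Real.sin w.im :=
      mul_le_mul hexp1 (by linarith) (by positivity) (Real.exp_pos _).le
    have h3 : (6 : ℝ) * (Real.exp (k : ℝ) * (0.9 * (1 / T))) ≤
        2 * Real.pi * (Real.exp w.re * Real.sin w.im) :=
      mul_le_mul (by linarith) h2 (by positivity) (by positivity)
    refine le_trans ?_ h3
    have e : 6 * (Real.exp (k : ℝ) * (0.9 * (1 / T))) = 5.4 * (Real.exp k / T) := by ring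
    have e2 : 5 * Real.exp (k : ℝ) / T = 5 * (Real.exp k / T) := by ring
    rw [e, e2]
    exact mul_le_mul_of_nonneg_right (by norm_num) (by positivity)
  · rw [ph_re]
    have h2 : Real.exp w.re * Real.sin w.im ≤ (2.72 * Real.exp (k : ℝ)) * (2 / T) :=
      mul_le_mul (hexp2.trans hexp3) (by linarith) (by nlinarith) (by positivity)
    have h3 : 2 * Real.pi * (Real.exp w.re * Real.sin w.im) ≤
        6.3 * ((2.72 * Real.exp (k : ℝ)) * (2 / T)) :=
      mul_le_mul (by linarith) h2 (mul_nonneg (Real.exp_pos _).le (by linarith)) (by norm_num)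
    refine h3.trans ?_
    have e : 6.3 * ((2.72 * Real.exp (k : ℝ)) * (2 / T)) = (6.3 * 2.72 * 2) * (Real.exp k / T) := by
      ring
    have e2 : 35 * Real.exp (k : ℝ) / T = 35 * (Real.exp k / T) := by ring
    rw [e, e2]
    exact mul_le_mul_of_nonneg_right (by norm_num) (by positivity)
  · rw [ph_im]
    have hc0 : 0 ≤ Real.cos w.im :=
      Real.cos_nonneg_of_neg_pi_div_two_le_of_le (by linarith) (by linarith)
    have hp1 : 0 ≤ Real.exp w.re * Real.cos w.im := by positivity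
    have : 2 * Real.pi * (-1) ≤ 2 * Real.pi * (Real.exp w.re * Real.cos w.im - 1) :=
      mul_le_mul_of_nonneg_left (by linarith) (by linarith)
    linarith
  · rw [ph_im]
    refine mul_le_mul_of_nonneg_left ?_ (by linarith)
    have hc1 : Real.cos w.im ≤ 1 := Real.cos_le_one _
    have : Real.exp w.re * Real.cos w.im ≤ Real.exp w.re := mul_le_of_le_one_right (Real.exp_pos _).le hc1
    linarith

/-- iterated integral, the other order. -/
lemma iter_eq2 (F : ℂ → ℝ≥0∞) (hF : Measurable F) (a b c d : ℝ) :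
    ∫⁻ w in {w : ℂ | w.re ∈ Icc a b ∧ w.im ∈ Icc c d}, F w =
      ∫⁻ x in Icc a b, ∫⁻ y in Icc c d, F (⟨x, y⟩ : ℂ) := by
  have hmp := Complex.volume_preserving_equiv_real_prod.symm
  have h1 := hmp.setLIntegral_comp_preimage_emb
    (Complex.measurableEquivRealProd.symm.measurableEmbedding) F
    {w : ℂ | w.re ∈ Icc a b ∧ w.im ∈ Icc c d}
  rw [← h1]
  have h2 : (Complex.measurableEquivRealProd.symm ⁻¹'
      {w : ℂ | w.re ∈ Icc a b ∧ w.im ∈ Icc c d}) = Icc a b ×ˢ Icc c d := by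
    ext p
    rw [mem_prod]
    rfl
  rw [h2, Measure.volume_eq_prod, ← Measure.prod_restrict, lintegral_prod]
  · rfl
  · exact (hF.comp Complex.measurableEquivRealProd.symm.measurable).aemeasurable

/-- The integral over a rectangle. -/
lemma rc_le (A B C : ℝ) (hb : ∀ n : ℕ, |bn A B n| ≤ C * (1 + Real.log n) ^ 2)
    {T : ℝ} (hT : 10 ≤ T) (k : ℤ) :
    ∫⁻ z in RC k T, H4.gE A B z ≤
      ENNReal.ofReal (30 * Real.exp k / T * ((2 * Real.pi * Real.exp (k + 1) + 4 * Real.pi) *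
        (72 * C ^ 2 * (1 + Real.log (1 + T / (5 * Real.exp k))) ^ 4 / (5 * Real.exp k / T)))) := by
  have h4 : DX2Statement := H38.dx2
  have hTp : 0 < T := by linarith
  have hpi := Real.pi_pos
  have hek : 0 < Real.exp (k : ℝ) := Real.exp_pos _
  set x1 : ℝ := 5 * Real.exp k / T with hx1
  have hx1p : 0 < x1 := by positivity
  have hα0 : bn A B 0 = 0 := by simp [bn]
  unfold RC
  rw [iter_eq2 _ (H4.measurable_gE h4 A B)]
  have hin : ∀ x ∈ Icc (5 * Real.exp k / T) (35 * Real.exp k / T),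
      ∫⁻ y in Icc (-(2 * Real.pi)) (2 * Real.pi * Real.exp (k + 1)), H4.gE A B (⟨x, y⟩ : ℂ) ≤
      ENNReal.ofReal ((2 * Real.pi * Real.exp (k + 1) + 4 * Real.pi) *
        (72 * C ^ 2 * (1 + Real.log (1 + T / (5 * Real.exp k))) ^ 4 / x1)) := by
    intro x hx
    have hx0 : x1 ≤ x := hx.1
    have hxp : 0 < x := lt_of_lt_of_le hx1p hx0
    have e1 : ∀ y : ℝ, H4.gE A B (⟨x, y⟩ : ℂ) = ENNReal.ofReal
        (‖∑' n : ℕ, (bn A B n : ℂ) * Complex.exp (-(n * (x + y * I)))‖ ^ 2) := by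
      intro y
      have e2 : (⟨x, y⟩ : ℂ) = x + y * I := by
        apply Complex.ext <;> simp
      unfold H4.gE
      rw [if_pos hxp, e2]
      rfl
    simp only [e1]
    have hl : Real.log (1 + 1 / x) ≤ Real.log (1 + T / (5 * Real.exp k)) := by
      refine Real.log_le_log (by positivity) ?_
      have e3 : T / (5 * Real.exp k) = 1 / x1 := by
        rw [hx1]
        field_simp
      rw [e3]
      have := one_div_le_one_div_of_le hx1p hx0
      linarith
    have hl0 : 0 ≤ Real.log (1 + 1 / x) := Real.log_nonneg (by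
      have : 0 < 1 / x := by positivity
      linarith)
    have hs := ser_le (bn A B) x
      (72 * C ^ 2 * (1 + Real.log (1 + T / (5 * Real.exp k))) ^ 4 / x1) (fun y => by
        refine H4.summable_EE h4 A B ?_
        simpa using hxp) (fun N => (size_le (bn A B) C hα0 hb hxp N).trans (by
        refine div_le_div₀ (by positivity) ?_ hx1p hx0
        refine mul_le_mul_of_nonneg_left ?_ (by positivity)
        exact pow_le_pow_left₀ (by linarith) (by linarith) 4))
      (-(2 * Real.pi)) (2 * Real.pi * Real.exp (k + 1)) (by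
        have : 0 < 2 * Real.pi * Real.exp ((k : ℝ) + 1) := by positivity
        linarith)
    refine hs.trans (le_of_eq ?_)
    congr 1
    ring
  refine (setLIntegral_mono' measurableSet_Icc hin).trans ?_
  rw [setLIntegral_const, Real.volume_Icc, mul_comm, ← ENNReal.ofReal_mul]
  · refine ENNReal.ofReal_le_ofReal (le_of_eq ?_)
    ring
  · have e : 35 * Real.exp (k : ℝ) / T - 5 * Real.exp k / T = 30 * (Real.exp k / T) := by ring
    rw [e]
    positivity

/-- `e^{-2k}` times the integral over the image. -/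
lemma box_le (A B C : ℝ) (hb : ∀ n : ℕ, |bn A B n| ≤ C * (1 + Real.log n) ^ 2)
    {T : ℝ} (hT : 10 ≤ T) (k : ℤ) :
    ∫⁻ w in BX k T, H4.gE A B (ph w) ≤
      ENNReal.ofReal (1 / (4 * Real.pi ^ 2 * Real.exp (2 * k))) *
        ENNReal.ofReal (30 * Real.exp k / T * ((2 * Real.pi * Real.exp (k + 1) + 4 * Real.pi) *
        (72 * C ^ 2 * (1 + Real.log (1 + T / (5 * Real.exp k))) ^ 4 / (5 * Real.exp k / T)))) := by
  have hpi := Real.pi_pos
  have e2 : ∫⁻ z in ph '' (BX k T), H4.gE A B z =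
      ∫⁻ w in BX k T, ENNReal.ofReal |(dph w).det| * H4.gE A B (ph w) :=
    lintegral_image_eq_lintegral_abs_det_fderiv_mul volume (measurableSet_BX k T)
      (fun w _ => (hasFDerivAt_ph w).hasFDerivWithinAt) (injOn_BX hT k) _
  have h3 : ∫⁻ z in ph '' (BX k T), H4.gE A B z ≤ _ :=
    (lintegral_mono_set (image_BX hT k)).trans (rc_le A B C hb hT k)
  refine le_trans ?_ (mul_le_mul' le_rfl h3)
  rw [e2, ← lintegral_const_mul]
  · refine setLIntegral_mono' (measurableSet_BX k T) fun w hw => ?_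
    rw [← mul_assoc, ← ENNReal.ofReal_mul (by positivity), det_dph]
    have h4 : 1 ≤ 1 / (4 * Real.pi ^ 2 * Real.exp (2 * k)) *
        (4 * Real.pi ^ 2 * Real.exp (2 * w.re)) := by
      rw [one_div, inv_mul_eq_div, one_le_div (by positivity)]
      refine mul_le_mul_of_nonneg_left (Real.exp_le_exp.2 ?_) (by positivity)
      linarith [hw.1.1]
    calc H4.gE A B (ph w) = ENNReal.ofReal 1 * H4.gE A B (ph w) := by
          rw [ENNReal.ofReal_one, one_mul]
      _ ≤ _ := mul_le_mul' (ENNReal.ofReal_le_ofReal h4) le_rfl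
  · refine Measurable.mul ?_ ((H4.measurable_gE H38.dx2 A B).comp measurable_ph)
    simp only [det_dph]
    fun_prop

/-- The numbers. -/
lemma num_le (C : ℝ) {T : ℝ} (hT : 10 < T) (k : ℤ) :
    Real.exp (17 - 8 * (k : ℝ) ^ 2 + |(k : ℝ)|) * (1 / (4 * Real.pi ^ 2 * Real.exp (2 * k)) *
      (30 * Real.exp k / T * ((2 * Real.pi * Real.exp (k + 1) + 4 * Real.pi) *
        (72 * C ^ 2 * (1 + Real.log (1 + T / (5 * Real.exp k))) ^ 4 / (5 * Real.exp k / T))))) ≤
      (C ^ 2 * 34992 * Real.exp 20) * Real.log T ^ 4 * Real.exp (-|(k : ℝ)|) := by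
  have hTp : 0 < T := by linarith
  have hpi := Real.pi_pos
  have hpi3 := Real.pi_gt_three
  have hL : 1 ≤ Real.log T := by
    rw [Real.le_log_iff_exp_le hTp]
    have := Real.exp_one_lt_d9
    linarith
  set a : ℝ := |(k : ℝ)| with ha
  have ha0 : 0 ≤ a := abs_nonneg _
  have hka : (k : ℝ) ≤ a := le_abs_self _
  have hka' : -(k : ℝ) ≤ a := neg_le_abs _
  have hek : 0 < Real.exp (k : ℝ) := Real.exp_pos _
  -- the logarithm
  have hl : 1 + Real.log (1 + T / (5 * Real.exp k)) ≤ 3 * Real.log T * Real.exp a := by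
    have h1 : T / (5 * Real.exp k) ≤ T * Real.exp a := by
      rw [div_eq_mul_inv]
      refine mul_le_mul_of_nonneg_left ?_ hTp.le
      rw [mul_inv, ← Real.exp_neg]
      calc (5 : ℝ)⁻¹ * Real.exp (-(k : ℝ)) ≤ 1 * Real.exp a :=
            mul_le_mul (by norm_num) (Real.exp_le_exp.2 hka') (Real.exp_pos _).le (by norm_num)
        _ = Real.exp a := one_mul _
    have hea : 1 ≤ Real.exp a := Real.one_le_exp ha0
    have h2 : 1 + T / (5 * Real.exp k) ≤ T ^ 2 * Real.exp a := by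
      have h3 : 1 ≤ T * (T - 1) := by nlinarith
      have h4 : 1 ≤ T * (T - 1) * Real.exp a := one_le_mul_of_one_le_of_one_le h3 hea
      have h5 : T * (T - 1) * Real.exp a = T ^ 2 * Real.exp a - T * Real.exp a := by ring
      linarith
    have h4 : Real.log (1 + T / (5 * Real.exp k)) ≤ 2 * Real.log T + a := by
      refine (Real.log_le_log (by positivity) h2).trans (le_of_eq ?_)
      rw [Real.log_mul (by positivity) (by positivity), Real.log_pow, Real.log_exp]
      push_cast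
      ring
    have h5 : 1 + a ≤ Real.exp a := by linarith [Real.add_one_le_exp a]
    nlinarith
  have hl0 : 0 ≤ 1 + Real.log (1 + T / (5 * Real.exp k)) := by
    have : 0 ≤ Real.log (1 + T / (5 * Real.exp k)) := Real.log_nonneg (by
      have : 0 < T / (5 * Real.exp (k : ℝ)) := by positivity
      linarith)
    linarith
  have hl4 : (1 + Real.log (1 + T / (5 * Real.exp k))) ^ 4 ≤
      81 * Real.log T ^ 4 * Real.exp (4 * a) := by
    refine (pow_le_pow_left₀ hl0 hl 4).trans (le_of_eq ?_)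
    rw [mul_pow, mul_pow, ← Real.exp_nat_mul]
    norm_num
  -- the rest
  have hy : 2 * Real.pi * Real.exp (k + 1) + 4 * Real.pi ≤ 10 * Real.pi * Real.exp a := by
    have h1 : Real.exp ((k : ℝ) + 1) ≤ 3 * Real.exp a := by
      rw [Real.exp_add, mul_comm]
      have := Real.exp_one_lt_d9
      exact mul_le_mul (by linarith) (Real.exp_le_exp.2 hka) (Real.exp_pos _).le (by norm_num)
    have hea : 1 ≤ Real.exp a := Real.one_le_exp ha0
    nlinarith
  have hx : 30 * Real.exp (k : ℝ) / T * ((2 * Real.pi * Real.exp (k + 1) + 4 * Real.pi) *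
        (72 * C ^ 2 * (1 + Real.log (1 + T / (5 * Real.exp k))) ^ 4 / (5 * Real.exp k / T))) =
      432 * C ^ 2 * ((2 * Real.pi * Real.exp (k + 1) + 4 * Real.pi) *
        (1 + Real.log (1 + T / (5 * Real.exp k))) ^ 4) := by
    field_simp
    ring
  rw [hx]
  have h6 : (2 * Real.pi * Real.exp (k + 1) + 4 * Real.pi) *
        (1 + Real.log (1 + T / (5 * Real.exp k))) ^ 4 ≤
      (10 * Real.pi * Real.exp a) * (81 * Real.log T ^ 4 * Real.exp (4 * a)) :=
    mul_le_mul hy hl4 (by positivity) (by positivity)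
  have h7 : 1 / (4 * Real.pi ^ 2 * Real.exp (2 * k)) ≤ 1 / (4 * Real.pi ^ 2) * Real.exp (2 * a) := by
    rw [one_div, mul_inv, ← one_div, ← Real.exp_neg]
    refine mul_le_mul_of_nonneg_left (Real.exp_le_exp.2 ?_) (by positivity)
    linarith
  calc Real.exp (17 - 8 * (k : ℝ) ^ 2 + a) * (1 / (4 * Real.pi ^ 2 * Real.exp (2 * k)) *
      (432 * C ^ 2 * ((2 * Real.pi * Real.exp (k + 1) + 4 * Real.pi) *
        (1 + Real.log (1 + T / (5 * Real.exp k))) ^ 4)))
      ≤ Real.exp (17 - 8 * (k : ℝ) ^ 2 + a) * ((1 / (4 * Real.pi ^ 2) * Real.exp (2 * a)) *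
      (432 * C ^ 2 * ((10 * Real.pi * Real.exp a) * (81 * Real.log T ^ 4 * Real.exp (4 * a))))) := by
        refine mul_le_mul_of_nonneg_left ?_ (Real.exp_pos _).le
        refine mul_le_mul h7 ?_ (by positivity) (by positivity)
        exact mul_le_mul_of_nonneg_left h6 (by positivity)
    _ = (C ^ 2 * 34992 * Real.log T ^ 4) * (10 / (4 * Real.pi)) *
        Real.exp (17 - 8 * (k : ℝ) ^ 2 + 8 * a) := by
        have e1 : Real.exp (17 - 8 * (k : ℝ) ^ 2 + 8 * a) =
            Real.exp (17 - 8 * (k : ℝ) ^ 2 + a) * Real.exp (2 * a) * Real.exp a *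
              Real.exp (4 * a) := by
          rw [← Real.exp_add, ← Real.exp_add, ← Real.exp_add]
          congr 1
          ring
        rw [e1]
        field_simp
        ring
    _ ≤ (C ^ 2 * 34992 * Real.log T ^ 4) * 1 * Real.exp (20 + -a) := by
        refine mul_le_mul ?_ (Real.exp_le_exp.2 ?_) (Real.exp_pos _).le (by positivity)
        · refine mul_le_mul_of_nonneg_left ?_ (by positivity)
          rw [div_le_one (by positivity)]
          linarith
        · have : (k : ℝ) ^ 2 = a ^ 2 := by rw [ha, sq_abs]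
          rw [this]
          nlinarith [sq_nonneg (a - 9 / 16)]
    _ = _ := by
        rw [Real.exp_add]
        ring

/-- The weight on the block number `k`. -/
lemma weight_le (k : ℤ) {u : ℝ} (hu : u ∈ Icc (k : ℝ) (k + 1)) :
    Real.exp (-((4 : ℝ) ^ 2 * u ^ 2) + u) ≤ Real.exp (17 - 8 * (k : ℝ) ^ 2 + |(k : ℝ)|) := by
  refine Real.exp_le_exp.2 ?_
  have h1 : u ≤ |(k : ℝ)| + 1 := by linarith [hu.2, le_abs_self (k : ℝ)]
  have h2 : (k : ℝ) ^ 2 ≤ 2 * u ^ 2 + 2 := by
    have h3 : 0 ≤ u - k := by linarith [hu.1]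
    have h4 : u - k ≤ 1 := by linarith [hu.2]
    nlinarith [sq_nonneg (u + (u - k))]
  nlinarith

/-- The function on the `u`-side. -/
noncomputable def GG (A B : ℝ) (p : ℝ × ℝ) : ℝ≥0∞ :=
  H4.gE A B (zp p.2 p.1) * ENNReal.ofReal (Real.exp (-((4 : ℝ) ^ 2 * p.2 ^ 2) + p.2))

/-- One block. -/
lemma block_le (A B C : ℝ) (hb : ∀ n : ℕ, |bn A B n| ≤ C * (1 + Real.log n) ^ 2)
    {T : ℝ} (hT : 10 < T) (k : ℤ) :
    ∫⁻ δ in Icc (1 / T) (2 / T), ∫⁻ u in Icc (k : ℝ) (k + 1), GG A B (δ, u) ≤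
      ENNReal.ofReal ((C ^ 2 * 34992 * Real.exp 20) * Real.log T ^ 4 * Real.exp (-|(k : ℝ)|)) := by
  have hTp : 0 < T := by linarith
  have hpi := Real.pi_pos
  have h1 : ∫⁻ δ in Icc (1 / T) (2 / T), ∫⁻ u in Icc (k : ℝ) (k + 1), GG A B (δ, u) ≤
      ENNReal.ofReal (Real.exp (17 - 8 * (k : ℝ) ^ 2 + |(k : ℝ)|)) *
        ∫⁻ w in BX k T, H4.gE A B (ph w) := by
    have hm : Measurable fun w : ℂ => ENNReal.ofReal
        (Real.exp (17 - 8 * (k : ℝ) ^ 2 + |(k : ℝ)|)) * H4.gE A B (ph w) :=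
      ((H4.measurable_gE H38.dx2 A B).comp measurable_ph).const_mul _
    have hm0 : Measurable fun w : ℂ => H4.gE A B (ph w) :=
      (H4.measurable_gE H38.dx2 A B).comp measurable_ph
    rw [← lintegral_const_mul _ hm0]
    have h2 := iter_eq (fun w : ℂ => ENNReal.ofReal
        (Real.exp (17 - 8 * (k : ℝ) ^ 2 + |(k : ℝ)|)) * H4.gE A B (ph w)) hm
        (k : ℝ) (k + 1) (1 / T) (2 / T)
    refine le_trans ?_ (le_of_eq h2)
    refine lintegral_mono fun δ => ?_
    refine setLIntegral_mono' measurableSet_Icc fun u hu => ?_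
    unfold GG
    rw [← zp_re_im, mul_comm]
    exact mul_le_mul' (ENNReal.ofReal_le_ofReal (weight_le k hu)) le_rfl
  refine h1.trans ((mul_le_mul' le_rfl (box_le A B C hb hT.le k)).trans ?_)
  rw [← ENNReal.ofReal_mul (by positivity), ← ENNReal.ofReal_mul (by positivity)]
  exact ENNReal.ofReal_le_ofReal (num_le C hT k)

lemma summable_exp_abs : Summable fun k : ℤ => Real.exp (-|(k : ℝ)|) := by
  refine Summable.of_nat_of_neg ?_ ?_
  · have h : (fun n : ℕ => Real.exp (-|((n : ℤ) : ℝ)|)) = fun n : ℕ => Real.exp (-(n : ℝ)) := by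
      funext n
      congr 1
      simp
    rw [h]
    exact Real.summable_exp_neg_nat
  · have h : (fun n : ℕ => Real.exp (-|((-(n : ℤ) : ℤ) : ℝ)|)) =
        fun n : ℕ => Real.exp (-(n : ℝ)) := by
      funext n
      congr 1
      simp
    rw [h]
    exact Real.summable_exp_neg_nat

/-- The whole line. -/
lemma line_le (A B C : ℝ) (hb : ∀ n : ℕ, |bn A B n| ≤ C * (1 + Real.log n) ^ 2)
    {T : ℝ} (hT : 10 < T) :
    ∫⁻ δ in Icc (1 / T) (2 / T), ∫⁻ u : ℝ, GG A B (δ, u) ≤
      ENNReal.ofReal ((C ^ 2 * 34992 * Real.exp 20) * Real.log T ^ 4 *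
        ∑' k : ℤ, Real.exp (-|(k : ℝ)|)) := by
  have hTp : 0 < T := by linarith
  have hL : 1 ≤ Real.log T := by
    rw [Real.le_log_iff_exp_le hTp]
    have := Real.exp_one_lt_d9
    linarith
  have hmeas : Measurable (GG A B) := H92.meas_J0 H38.dx2 A B 4
  have hcov : (⋃ k : ℤ, Icc (k : ℝ) (k + 1)) = univ := by
    rw [eq_univ_iff_forall]
    intro u
    rw [mem_iUnion]
    exact ⟨⌊u⌋, Int.floor_le u, (Int.lt_floor_add_one u).le⟩
  have h1 : ∀ δ : ℝ, ∫⁻ u : ℝ, GG A B (δ, u) ≤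
      ∑' k : ℤ, ∫⁻ u in Icc (k : ℝ) (k + 1), GG A B (δ, u) := by
    intro δ
    rw [← setLIntegral_univ, ← hcov]
    exact lintegral_iUnion_le _ _
  refine (lintegral_mono fun δ => h1 δ).trans ?_
  rw [lintegral_tsum]
  · refine (ENNReal.tsum_le_tsum fun k => block_le A B C hb hT k).trans (le_of_eq ?_)
    rw [← ENNReal.ofReal_tsum_of_nonneg]
    · rw [tsum_mul_left]
    · intro k
      positivity
    · exact summable_exp_abs.mul_left _
  · intro k
    exact (hmeas.lintegral_prod_right').aemeasurable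

/-- Row TAI7. -/
theorem tai7 : G7.TAI7Statement := by
  intro A B
  obtain ⟨-, -, C, hC, hb⟩ := H38.dx2 A B
  have hS : 0 < ∑' k : ℤ, Real.exp (-|(k : ℝ)|) :=
    summable_exp_abs.tsum_pos (fun k => (Real.exp_pos _).le) 0 (Real.exp_pos _)
  refine ⟨Real.exp 2 * ((C ^ 2 * 34992 * Real.exp 20) * ∑' k : ℤ, Real.exp (-|(k : ℝ)|)), 11,
    by positivity, by norm_num, ?_⟩
  intro T H hT hH
  have hT10 : 10 < T := by linarith
  have hTp : 0 < T := by linarith
  have hline := line_le A B C hb hT10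
  have hpt : ∀ δ ∈ Icc (1 / T) (2 / T), ∫⁻ u in {u : ℝ | 1 / 2 < |u|},
      ENNReal.ofReal (‖EE A B (zp u δ)‖ ^ 2 * Real.exp (-(H ^ 2 * u ^ 2) + u)) ≤
      ENNReal.ofReal (Real.exp (2 - H ^ 2 / 8)) * ∫⁻ u : ℝ, GG A B (δ, u) := by
    intro δ hδ
    have hδ0 : 0 < δ := lt_of_lt_of_le (by positivity) hδ.1
    have hδh : δ ≤ 1 / 2 := by
      refine hδ.2.trans ?_
      rw [div_le_iff₀ hTp]
      linarith
    have hm : Measurable fun u : ℝ => GG A B (δ, u) := H92.meas_Ju H38.dx2 A B 4 δ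
    rw [← lintegral_const_mul _ hm]
    have hset : MeasurableSet {u : ℝ | 1 / 2 < |u|} :=
      measurableSet_lt measurable_const measurable_norm
    refine (setLIntegral_mono' hset fun u hu => ?_).trans (setLIntegral_le_lintegral _ _)
    have hu' : 1 / 2 < |u| := hu
    have hu2 : 1 / 4 ≤ u ^ 2 := by
      rw [← sq_abs]
      nlinarith
    have hpos := H4.zp_re_pos (u := u) hδ0 hδh
    unfold GG H4.gE
    rw [if_pos hpos, ← ENNReal.ofReal_mul (by positivity), ← ENNReal.ofReal_mul (by positivity)]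
    refine ENNReal.ofReal_le_ofReal ?_
    rw [mul_left_comm, ← Real.exp_add]
    refine mul_le_mul_of_nonneg_left (Real.exp_le_exp.2 ?_) (by positivity)
    have hH2 : 0 ≤ H ^ 2 - 16 := by nlinarith
    nlinarith [mul_le_mul_of_nonneg_left hu2 hH2]
  refine (setLIntegral_mono' measurableSet_Icc hpt).trans ?_
  have hmeas : Measurable (GG A B) := H92.meas_J0 H38.dx2 A B 4
  rw [lintegral_const_mul _ hmeas.lintegral_prod_right']
  refine (mul_le_mul' le_rfl hline).trans ?_
  rw [← ENNReal.ofReal_mul (by positivity)]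
  refine ENNReal.ofReal_le_ofReal (le_of_eq ?_)
  rw [sub_eq_add_neg, Real.exp_add]
  ring

end Pool.Agent.Lib.MP_6bc78b_nt.GP.H34T
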