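import Pool.Agent.Lib.MP_6bc78b_nt.GP.H43.Defs10b
import Pool.Agent.Lib.MP_6bc78b_nt.GP.H41.BandG

/-! Project GP10, row TAILB: the high frequencies, cut by the Gaussian. -/

set_option autoImplicit false

open Complex Filter Topology MeasureTheory ArithmeticFunction Set
open scoped ENNReal ComplexConjugate

namespace Pool.Agent.Lib.MP_6bc78b_nt.GP.H34L

open Pool.Agent.Lib.MP_6bc78b_nt.MS Pool.Agent.Lib.MP_6bc78b_nt.MS.P1
open Pool.Agent.Lib.MP_6bc78b_nt.GP
open H76 H34T H41B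

/-- The numbers. -/
lemma num_le {K : ℝ} (hK : 0 ≤ K) {T : ℝ} (hT : 10 < T) (k : ℤ) :
    Real.exp (7 / 2 - 5 / 2 * |(k : ℝ)| + k) * (1 / (4 * Real.pi ^ 2 * Real.exp (2 * k)) *
      (30 * Real.exp k / T * ((2 * Real.pi * Real.exp (k + 1) + 4 * Real.pi) *
        (72 * K * (1 + Real.log (1 + T / (5 * Real.exp k))) ^ 4 / (5 * Real.exp k / T))))) ≤
      (K * 200000000 * Real.exp 4) * Real.log T ^ 4 * Real.exp (-|(k : ℝ)|) := by
  have hTp : 0 < T := by linarith
  have hpi := Real.pi_pos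
  have hpi3 := Real.pi_gt_three
  have hL : 1 ≤ Real.log T := by
    rw [Real.le_log_iff_exp_le hTp]
    have := Real.exp_one_lt_d9
    linarith
  set a : ℝ := |(k : ℝ)| with ha
  have ha0 : 0 ≤ a := abs_nonneg _
  have hka : (k : ℝ) ≤ a := le_abs_self _
  have hka' : -(k : ℝ) ≤ a := neg_le_abs _
  have hek : 0 < Real.exp (k : ℝ) := Real.exp_pos _
  -- the logarithm
  have hl : 1 + Real.log (1 + T / (5 * Real.exp k)) ≤
      3 * Real.log T * (8 * Real.exp ((1 + a) / 8)) := by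
    have h1 : T / (5 * Real.exp k) ≤ T * Real.exp a := by
      rw [div_eq_mul_inv]
      refine mul_le_mul_of_nonneg_left ?_ hTp.le
      rw [mul_inv, ← Real.exp_neg]
      calc (5 : ℝ)⁻¹ * Real.exp (-(k : ℝ)) ≤ 1 * Real.exp a :=
            mul_le_mul (by norm_num) (Real.exp_le_exp.2 hka') (Real.exp_pos _).le (by norm_num)
        _ = Real.exp a := one_mul _
    have hea : 1 ≤ Real.exp a := Real.one_le_exp ha0
    have h2 : 1 + T / (5 * Real.exp k) ≤ T ^ 2 * Real.exp a := by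
      have h3 : 1 ≤ T * (T - 1) := by nlinarith
      have h4 : 1 ≤ T * (T - 1) * Real.exp a := one_le_mul_of_one_le_of_one_le h3 hea
      have h5 : T * (T - 1) * Real.exp a = T ^ 2 * Real.exp a - T * Real.exp a := by ring
      linarith
    have h4 : Real.log (1 + T / (5 * Real.exp k)) ≤ 2 * Real.log T + a := by
      refine (Real.log_le_log (by positivity) h2).trans (le_of_eq ?_)
      rw [Real.log_mul (by positivity) (by positivity), Real.log_pow, Real.log_exp]
      push_cast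
      ring
    have h5 : 1 + a ≤ 8 * Real.exp ((1 + a) / 8) := by
      linarith [Real.add_one_le_exp ((1 + a) / 8)]
    have h6 : 1 + (2 * Real.log T + a) ≤ 3 * Real.log T * (1 + a) := by nlinarith
    have h7 : 3 * Real.log T * (1 + a) ≤ 3 * Real.log T * (8 * Real.exp ((1 + a) / 8)) :=
      mul_le_mul_of_nonneg_left h5 (by linarith)
    linarith
  have hl0 : 0 ≤ 1 + Real.log (1 + T / (5 * Real.exp k)) := by
    have : 0 ≤ Real.log (1 + T / (5 * Real.exp k)) := Real.log_nonneg (by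
      have : 0 < T / (5 * Real.exp (k : ℝ)) := by positivity
      linarith)
    linarith
  have hl4 : (1 + Real.log (1 + T / (5 * Real.exp k))) ^ 4 ≤
      331776 * Real.log T ^ 4 * Real.exp ((1 + a) / 2) := by
    refine (pow_le_pow_left₀ hl0 hl 4).trans (le_of_eq ?_)
    have e : Real.exp ((1 + a) / 2) = Real.exp ((1 + a) / 8) ^ 4 := by
      rw [← Real.exp_nat_mul]
      congr 1
      push_cast
      ring
    rw [e]
    ring
  -- the rest
  have hy : 2 * Real.pi * Real.exp (k + 1) + 4 * Real.pi ≤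
      10 * Real.pi * Real.exp ((a + k) / 2) := by
    have h1 : Real.exp ((k : ℝ) + 1) ≤ 3 * Real.exp ((a + k) / 2) := by
      rw [Real.exp_add, mul_comm]
      have := Real.exp_one_lt_d9
      exact mul_le_mul (by linarith) (Real.exp_le_exp.2 (by linarith)) (Real.exp_pos _).le
        (by norm_num)
    have hea : 1 ≤ Real.exp ((a + k) / 2) := Real.one_le_exp (by linarith)
    nlinarith
  have hx : 30 * Real.exp (k : ℝ) / T * ((2 * Real.pi * Real.exp (k + 1) + 4 * Real.pi) *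
        (72 * K * (1 + Real.log (1 + T / (5 * Real.exp k))) ^ 4 / (5 * Real.exp k / T))) =
      432 * K * ((2 * Real.pi * Real.exp (k + 1) + 4 * Real.pi) *
        (1 + Real.log (1 + T / (5 * Real.exp k))) ^ 4) := by
    field_simp
    ring
  rw [hx]
  have h6 : (2 * Real.pi * Real.exp (k + 1) + 4 * Real.pi) *
        (1 + Real.log (1 + T / (5 * Real.exp k))) ^ 4 ≤
      (10 * Real.pi * Real.exp ((a + k) / 2)) *
        (331776 * Real.log T ^ 4 * Real.exp ((1 + a) / 2)) :=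
    mul_le_mul hy hl4 (by positivity) (by positivity)
  have h7 : 1 / (4 * Real.pi ^ 2 * Real.exp (2 * k)) =
      1 / (4 * Real.pi ^ 2) * Real.exp (-(2 * k)) := by
    rw [one_div, mul_inv, ← one_div, ← Real.exp_neg]
  calc Real.exp (7 / 2 - 5 / 2 * a + k) * (1 / (4 * Real.pi ^ 2 * Real.exp (2 * k)) *
      (432 * K * ((2 * Real.pi * Real.exp (k + 1) + 4 * Real.pi) *
        (1 + Real.log (1 + T / (5 * Real.exp k))) ^ 4)))
      ≤ Real.exp (7 / 2 - 5 / 2 * a + k) * ((1 / (4 * Real.pi ^ 2) * Real.exp (-(2 * k))) *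
      (432 * K * ((10 * Real.pi * Real.exp ((a + k) / 2)) *
        (331776 * Real.log T ^ 4 * Real.exp ((1 + a) / 2))))) := by
        rw [h7]
        refine mul_le_mul_of_nonneg_left ?_ (Real.exp_pos _).le
        refine mul_le_mul_of_nonneg_left ?_ (by positivity)
        exact mul_le_mul_of_nonneg_left h6 (by positivity)
    _ = (K * 143327232 * Real.log T ^ 4) * (10 / (4 * Real.pi)) *
        Real.exp (4 - 3 / 2 * a - k / 2) := by
        have e1 : Real.exp (4 - 3 / 2 * a - k / 2) =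
            Real.exp (7 / 2 - 5 / 2 * a + k) * Real.exp (-(2 * k)) * Real.exp ((a + k) / 2) *
              Real.exp ((1 + a) / 2) := by
          rw [← Real.exp_add, ← Real.exp_add, ← Real.exp_add]
          congr 1
          ring
        rw [e1]
        field_simp
        ring
    _ ≤ (K * 143327232 * Real.log T ^ 4) * 1 * Real.exp (4 + -a) := by
        refine mul_le_mul ?_ (Real.exp_le_exp.2 ?_) (Real.exp_pos _).le (by positivity)
        · refine mul_le_mul_of_nonneg_left ?_ (by positivity)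
          rw [div_le_one (by positivity)]
          linarith
        · linarith
    _ ≤ (K * 200000000 * Real.log T ^ 4) * 1 * Real.exp (4 + -a) := by
        refine mul_le_mul_of_nonneg_right ?_ (Real.exp_pos _).le
        have : 0 ≤ K * Real.log T ^ 4 := by positivity
        nlinarith
    _ = _ := by
        rw [Real.exp_add]
        ring

/-- The weight on the block number `k`. -/
lemma weight_le (k : ℤ) {u : ℝ} (hu : u ∈ Icc (k : ℝ) (k + 1)) :
    Real.exp (-(5 / 2 * |u|) + u) ≤ Real.exp (7 / 2 - 5 / 2 * |(k : ℝ)| + k) := by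
  refine Real.exp_le_exp.2 ?_
  have h2 : |(k : ℝ)| ≤ |u| + 1 := by
    have h3 : |(k : ℝ)| - |u| ≤ |(k : ℝ) - u| := abs_sub_abs_le_abs_sub _ _
    have h4 : |(k : ℝ) - u| ≤ 1 := by
      rw [abs_le]
      constructor
      · linarith [hu.2]
      · linarith [hu.1]
    linarith
  linarith [hu.2]

/-- The function on the `u`-side. -/
noncomputable def GG (A B : ℝ) (S : Finset ℕ) (β : ℕ → ℝ) (p : ℝ × ℝ) : ℝ≥0∞ :=
  gM A B S β (zp p.2 p.1) * ENNReal.ofReal (Real.exp (-(5 / 2 * |p.2|) + p.2))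

lemma meas_J0 (A B : ℝ) {S : Finset ℕ} (hS : ∀ m ∈ S, 1 ≤ m) (β : ℕ → ℝ) :
    Measurable (GG A B S β) := by
  unfold GG
  refine ((measurable_gM A B hS β).comp H92.meas_zp).mul ?_
  refine Measurable.ennreal_ofReal (Continuous.measurable ?_)
  fun_prop

/-- One block. -/
lemma block_le {A B C C₁ : ℝ} (hb : ∀ n : ℕ, |bn A B n| ≤ C * (1 + Real.log n) ^ 2)
    (hC : 0 ≤ C) {S : Finset ℕ} (hS : ∀ m ∈ S, 1 ≤ m) {β : ℕ → ℝ} (hβ : ∀ m, 0 ≤ β m)
    (h1 : ∑ m ∈ S, ∑ m' ∈ S, β m * β m' / (Nat.lcm m m' : ℝ) ≤ C₁)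
    {T : ℝ} (hT : 10 < T) (k : ℤ) :
    ∫⁻ δ in Icc (1 / T) (2 / T), ∫⁻ u in Icc (k : ℝ) (k + 1), GG A B S β (δ, u) ≤
      ENNReal.ofReal ((C ^ 2 * C₁ * 200000000 * Real.exp 4) * Real.log T ^ 4 *
        Real.exp (-|(k : ℝ)|)) := by
  have hTp : 0 < T := by linarith
  have hpi := Real.pi_pos
  have hC₁ : 0 ≤ C₁ := by
    refine le_trans ?_ h1
    refine Finset.sum_nonneg fun m _ => Finset.sum_nonneg fun m' _ => ?_
    exact div_nonneg (mul_nonneg (hβ m) (hβ m')) (Nat.cast_nonneg _)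
  have g1 : ∫⁻ δ in Icc (1 / T) (2 / T), ∫⁻ u in Icc (k : ℝ) (k + 1), GG A B S β (δ, u) ≤
      ENNReal.ofReal (Real.exp (7 / 2 - 5 / 2 * |(k : ℝ)| + k)) *
        ∫⁻ w in H34T.BX k T, gM A B S β (ph w) := by
    have hm : Measurable fun w : ℂ => ENNReal.ofReal
        (Real.exp (7 / 2 - 5 / 2 * |(k : ℝ)| + k)) * gM A B S β (ph w) :=
      ((measurable_gM A B hS β).comp measurable_ph).const_mul _
    have hm0 : Measurable fun w : ℂ => gM A B S β (ph w) :=
      (measurable_gM A B hS β).comp measurable_ph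
    rw [← lintegral_const_mul _ hm0]
    have h2 := iter_eq (fun w : ℂ => ENNReal.ofReal
        (Real.exp (7 / 2 - 5 / 2 * |(k : ℝ)| + k)) * gM A B S β (ph w)) hm
        (k : ℝ) (k + 1) (1 / T) (2 / T)
    refine le_trans ?_ (le_of_eq h2)
    refine lintegral_mono fun δ => ?_
    refine setLIntegral_mono' measurableSet_Icc fun u hu => ?_
    unfold GG
    rw [← zp_re_im, mul_comm]
    exact mul_le_mul' (ENNReal.ofReal_le_ofReal (weight_le k hu)) le_rfl
  refine g1.trans ((mul_le_mul' le_rfl (H41B.box_le hb hC hS hβ h1 hT.le k)).trans ?_)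
  rw [← ENNReal.ofReal_mul (by positivity), ← ENNReal.ofReal_mul (by positivity)]
  exact ENNReal.ofReal_le_ofReal (num_le (K := C ^ 2 * C₁) (by positivity) hT k)

/-- The whole line with the weight `e^(-5|u|/2 + u)`. -/
lemma line_le {A B C C₁ : ℝ} (hb : ∀ n : ℕ, |bn A B n| ≤ C * (1 + Real.log n) ^ 2)
    (hC : 0 ≤ C) {S : Finset ℕ} (hS : ∀ m ∈ S, 1 ≤ m) {β : ℕ → ℝ} (hβ : ∀ m, 0 ≤ β m)
    (h1 : ∑ m ∈ S, ∑ m' ∈ S, β m * β m' / (Nat.lcm m m' : ℝ) ≤ C₁)
    {T : ℝ} (hT : 10 < T) :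
    ∫⁻ δ in Icc (1 / T) (2 / T), ∫⁻ u : ℝ, GG A B S β (δ, u) ≤
      ENNReal.ofReal ((C ^ 2 * C₁ * 200000000 * Real.exp 4) * Real.log T ^ 4 *
        ∑' k : ℤ, Real.exp (-|(k : ℝ)|)) := by
  have hmeas : Measurable (GG A B S β) := meas_J0 A B hS β
  have hcov : (⋃ k : ℤ, Icc (k : ℝ) (k + 1)) = univ := by
    rw [eq_univ_iff_forall]
    intro u
    rw [mem_iUnion]
    exact ⟨⌊u⌋, Int.floor_le u, (Int.lt_floor_add_one u).le⟩
  have hC₁ : 0 ≤ C₁ := by
    refine le_trans ?_ h1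
    refine Finset.sum_nonneg fun m _ => Finset.sum_nonneg fun m' _ => ?_
    exact div_nonneg (mul_nonneg (hβ m) (hβ m')) (Nat.cast_nonneg _)
  have g1 : ∀ δ : ℝ, ∫⁻ u : ℝ, GG A B S β (δ, u) ≤
      ∑' k : ℤ, ∫⁻ u in Icc (k : ℝ) (k + 1), GG A B S β (δ, u) := by
    intro δ
    rw [← setLIntegral_univ, ← hcov]
    exact lintegral_iUnion_le _ _
  refine (lintegral_mono fun δ => g1 δ).trans ?_
  rw [lintegral_tsum]
  · refine (ENNReal.tsum_le_tsum fun k => block_le hb hC hS hβ h1 hT k).trans (le_of_eq ?_)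
    rw [← ENNReal.ofReal_tsum_of_nonneg]
    · rw [tsum_mul_left]
    · intro k
      positivity
    · exact H34T.summable_exp_abs.mul_left _
  · intro k
    exact (hmeas.lintegral_prod_right').aemeasurable

/-- `HH²` on the high frequencies. -/
lemma HH_sq_le {T lam u : ℝ} (hl : 0 < Real.log (Real.log T)) (hlam : 1 ≤ lam)
    (hu : 300 * Real.log (Real.log T) ≤ |u|) : 3 * |u| ≤ G10.HH T lam ^ 2 * u ^ 2 := by
  set l : ℝ := Real.log (Real.log T) with hldef
  have e : G10.HH T lam ^ 2 = lam ^ 2 / (100 * l) := by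
    unfold G10.HH
    rw [div_pow, mul_pow, Real.sq_sqrt hl.le]
    norm_num
  have hlam2 : 1 ≤ lam ^ 2 := one_le_pow₀ hlam
  have h0 : 0 ≤ |u| := abs_nonneg u
  rw [e, ← sq_abs u, div_mul_eq_mul_div, le_div_iff₀ (by positivity)]
  have h1 : 3 * |u| * (100 * l) = |u| * (300 * l) := by ring
  rw [h1]
  calc |u| * (300 * l) ≤ |u| * |u| := mul_le_mul_of_nonneg_left hu h0
    _ = 1 * |u| ^ 2 := by ring
    _ ≤ lam ^ 2 * |u| ^ 2 := mul_le_mul_of_nonneg_right hlam2 (by positivity)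

/-- Row TAILB. -/
theorem tailb : G10.TAILBStatement := by
  intro A B
  obtain ⟨-, -, C, hC, hb⟩ := H38.dx2 A B
  have hS : 0 < ∑' k : ℤ, Real.exp (-|(k : ℝ)|) :=
    H34T.summable_exp_abs.tsum_pos (fun k => (Real.exp_pos _).le) 0 (Real.exp_pos _)
  set D : ℝ := (C ^ 2 * 2 * 200000000 * Real.exp 4) * ∑' k : ℤ, Real.exp (-|(k : ℝ)|) with hD
  have hD0 : 0 < D := by positivity
  refine ⟨Real.exp (D + 3), ?_, ?_⟩
  · have h1 : Real.exp 3 ≤ Real.exp (D + 3) := Real.exp_le_exp.2 (by linarith)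
    have h2 : (10 : ℝ) < Real.exp 3 := by
      have h3 := Real.exp_one_gt_d9
      have h4 : Real.exp 3 = Real.exp 1 ^ 3 := by
        rw [← Real.exp_nat_mul]
        norm_num
      rw [h4]
      have h5 : (2.7 : ℝ) ^ 3 ≤ Real.exp 1 ^ 3 := pow_le_pow_left₀ (by norm_num) (by linarith) 3
      norm_num at h5
      linarith
    linarith
  intro T N lam S β hT hlam hM
  have hTp : 0 < T := lt_of_lt_of_le (Real.exp_pos _) hT
  have hLT : D + 3 ≤ Real.log T := (Real.le_log_iff_exp_le hTp).2 hT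
  have hL3 : 3 ≤ Real.log T := by linarith
  have hT10 : 10 < T := by
    have h1 : Real.exp 3 ≤ T := le_trans (Real.exp_le_exp.2 (by linarith)) hT
    have h2 : (10 : ℝ) < Real.exp 3 := by
      have h3 := Real.exp_one_gt_d9
      have h4 : Real.exp 3 = Real.exp 1 ^ 3 := by
        rw [← Real.exp_nat_mul]
        norm_num
      rw [h4]
      have h5 : (2.7 : ℝ) ^ 3 ≤ Real.exp 1 ^ 3 := pow_le_pow_left₀ (by norm_num) (by linarith) 3
      norm_num at h5
      linarith
    linarith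
  have hl : 0 < Real.log (Real.log T) := Real.log_pos (by linarith)
  have h1 : ∑ m ∈ S, ∑ m' ∈ S, β m * β m' / (Nat.lcm m m' : ℝ) ≤ 2 := by
    refine hM.sum_lcm.trans (le_of_eq ?_)
    norm_num
  have hline := line_le hb hC.le hM.one_le hM.nonneg h1 hT10
  have hpt : ∀ δ ∈ Icc (1 / T) (2 / T), ∫⁻ u in {u : ℝ | 300 * Real.log (Real.log T) ≤ |u|},
      ENNReal.ofReal (‖G10.EM A B S β (zp u δ)‖ ^ 2 *
        Real.exp (-(G10.HH T lam ^ 2 * u ^ 2) + u)) ≤
      ENNReal.ofReal (Real.exp (-(5 * Real.log (Real.log T)))) *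
        ∫⁻ u : ℝ, GG A B S β (δ, u) := by
    intro δ hδ
    have hδ0 : 0 < δ := lt_of_lt_of_le (by positivity) hδ.1
    have hδh : δ ≤ 1 / 2 := by
      refine hδ.2.trans ?_
      rw [div_le_iff₀ hTp]
      linarith
    have hm : Measurable fun u : ℝ => GG A B S β (δ, u) :=
      (meas_J0 A B hM.one_le β).comp (by fun_prop)
    rw [← lintegral_const_mul _ hm]
    have hset : MeasurableSet {u : ℝ | 300 * Real.log (Real.log T) ≤ |u|} :=
      measurableSet_le measurable_const measurable_norm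
    refine (setLIntegral_mono' hset fun u hu => ?_).trans (setLIntegral_le_lintegral _ _)
    have hu' : 300 * Real.log (Real.log T) ≤ |u| := hu
    have hsq := HH_sq_le hl hlam hu'
    have hpos := H4.zp_re_pos (u := u) hδ0 hδh
    unfold GG gM
    rw [if_pos hpos, ← ENNReal.ofReal_mul (by positivity), ← ENNReal.ofReal_mul (by positivity)]
    refine ENNReal.ofReal_le_ofReal ?_
    rw [mul_left_comm, ← Real.exp_add]
    refine mul_le_mul_of_nonneg_left (Real.exp_le_exp.2 ?_) (by positivity)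
    show -(G10.HH T lam ^ 2 * u ^ 2) + u ≤
      -(5 * Real.log (Real.log T)) + (-(5 / 2 * |u|) + u)
    linarith
  refine (setLIntegral_mono' measurableSet_Icc hpt).trans ?_
  rw [lintegral_const_mul _ (meas_J0 A B hM.one_le β).lintegral_prod_right']
  refine (mul_le_mul' le_rfl hline).trans ?_
  rw [← ENNReal.ofReal_mul (Real.exp_pos _).le]
  refine ENNReal.ofReal_le_ofReal ?_
  have e1 : Real.exp (-(5 * Real.log (Real.log T))) = (Real.log T ^ 5)⁻¹ := by
    have h5 : (5 : ℝ) * Real.log (Real.log T) = Real.log (Real.log T ^ 5) := by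
      rw [Real.log_pow]
      norm_num
    rw [Real.exp_neg, h5, Real.exp_log (by positivity)]
  have e2 : (C ^ 2 * 2 * 200000000 * Real.exp 4) * Real.log T ^ 4 *
        ∑' k : ℤ, Real.exp (-|(k : ℝ)|) = D * Real.log T ^ 4 := by
    rw [hD]
    ring
  rw [e1, e2, inv_mul_le_iff₀ (by positivity), mul_one]
  calc D * Real.log T ^ 4 ≤ Real.log T * Real.log T ^ 4 :=
        mul_le_mul_of_nonneg_right (by linarith) (by positivity)
    _ = Real.log T ^ 5 := by ring

end Pool.Agent.Lib.MP_6bc78b_nt.GP.H34L
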